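import Mathlib
import Pool.Agent.H230R2.SC.Core

/-!
# MP_1bfbc2_co: explicit formulas for the numbers of labeled self-complementary (di)graphs

`sG p` and `sD p` are the numbers of self-complementary graphs, resp. digraphs, on `Fin p`.  The
formula is a finite sum over nonempty sets `A` of divisors of `p!` and `|A|`-tuples of permutations;
the summand of a tuple is `2 ^ (number of orbits on unordered / ordered pairs)`, or `0`.
-/

set_option autoImplicit false

open Finset

namespace Pool.Agent.Results.MP_1bfbc2_co.ExplicitFormula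

open Pool.Agent.H230R2.SC

/-- unordered pairs of distinct points -/
abbrev EU (p : ℕ) : Type := {e : Sym2 (Fin p) // ¬ e.IsDiag}

/-- ordered pairs of distinct points -/
abbrev EO (p : ℕ) : Type := {e : Fin p × Fin p // e.1 ≠ e.2}

instance (p : ℕ) : MulAction (Equiv.Perm (Fin p)) (EU p) where
  smul σ e := ⟨Sym2.map σ e.1, by
    obtain ⟨e, he⟩ := e
    induction e using Sym2.ind with
    | _ x y => simpa using he⟩
  one_smul := by
    rintro ⟨e, he⟩
    apply Subtype.ext
    exact congrFun Sym2.map_id e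
  mul_smul := by
    rintro σ τ ⟨e, he⟩
    apply Subtype.ext
    change Sym2.map (σ * τ) e = Sym2.map σ (Sym2.map τ e)
    rw [Sym2.map_map]
    rfl

instance (p : ℕ) : MulAction (Equiv.Perm (Fin p)) (EO p) where
  smul σ e := ⟨(σ e.1.1, σ e.1.2), fun h => e.2 (σ.injective h)⟩
  one_smul := by
    rintro ⟨e, he⟩
    rfl
  mul_smul := by
    rintro σ τ ⟨e, he⟩
    rfl

/-- number of labeled self-complementary graphs of order `p` -/
noncomputable def sG (p : ℕ) : ℕ := Nat.card {G : SimpleGraph (Fin p) // Nonempty (G ≃g Gᶜ)}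

/-- labeled digraphs of order `p` (no loops, no multiple arcs) -/
def LDigraph (p : ℕ) : Type := {R : Fin p → Fin p → Prop // ∀ i, ¬ R i i}

/-- the complement of a digraph -/
def LDigraph.compl {p : ℕ} (D : LDigraph p) : LDigraph p :=
  ⟨fun i j => i ≠ j ∧ ¬ D.1 i j, fun _ h => h.1 rfl⟩

/-- number of labeled self-complementary digraphs of order `p` -/
noncomputable def sD (p : ℕ) : ℕ := Nat.card {D : LDigraph p //
  ∃ σ : Equiv.Perm (Fin p), ∀ i j, D.1 i j ↔ D.compl.1 (σ i) (σ j)}

/-- the formula, for an action of `Perm (Fin p)` on `E` -/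
noncomputable def formula (p : ℕ) (E : Type) [MulAction (Equiv.Perm (Fin p)) E] : ℚ :=
  ∑ A ∈ (p.factorial).divisors.powerset.erase ∅,
    ((-1) ^ (A.card + 1) / ∏ d ∈ A, (d : ℚ)) *
      ∑ σ : Fin A.card → Equiv.Perm (Fin p), (wt E σ : ℚ)

theorem formula_eq (p : ℕ) (E : Type) [MulAction (Equiv.Perm (Fin p)) E] [Finite E] :
    (Nat.card {c : E → Bool // ∃ g : Equiv.Perm (Fin p), ∀ e, c (g • e) = !c e} : ℚ) =
      formula p E := by
  classical
  have := Fintype.ofFinite E
  rw [main (E := E) (G := Equiv.Perm (Fin p))]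
  unfold formula
  rw [Nat.card_eq_fintype_card, Fintype.card_perm, Fintype.card_fin]

open Classical in
/-- a graph as a two-colouring of the unordered pairs -/
noncomputable def eG (p : ℕ) : SimpleGraph (Fin p) ≃ (EU p → Bool) where
  toFun := fun G e => decide (e.1 ∈ G.edgeSet)
  invFun := fun c => SimpleGraph.fromEdgeSet {e | ∃ h : ¬ e.IsDiag, c ⟨e, h⟩ = true}
  left_inv := by
    intro G
    ext a b
    rw [SimpleGraph.fromEdgeSet_adj]
    constructor
    · rintro ⟨⟨h, hc⟩, hab⟩
      simpa using hc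
    · intro h
      refine ⟨⟨by simpa using h.ne, by simpa using h⟩, h.ne⟩
  right_inv := by
    intro c
    funext e
    obtain ⟨e, he⟩ := e
    simp only [SimpleGraph.edgeSet_fromEdgeSet]
    rcases hc : c ⟨e, he⟩ with _ | _
    · simp [hc]
    · simp [hc, he]

theorem sG_card (p : ℕ) :
    sG p = Nat.card {c : EU p → Bool // ∃ g : Equiv.Perm (Fin p), ∀ e, c (g • e) = !c e} := by
  classical
  unfold sG
  refine Nat.card_congr (Equiv.subtypeEquiv (eG p) ?_)
  intro G
  have key : ∀ (g : Equiv.Perm (Fin p)) (a b : Fin p) (hab : a ≠ b),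
      (eG p G (g • (⟨s(a, b), by simpa using hab⟩ : EU p)) = !(eG p G ⟨s(a, b), by simpa using hab⟩)) ↔
        (¬ G.Adj (g a) (g b) ↔ G.Adj a b) := by
    intro g a b hab
    have h1 : eG p G (g • (⟨s(a, b), by simpa using hab⟩ : EU p)) = decide (G.Adj (g a) (g b)) := by
      change decide (Sym2.map g s(a, b) ∈ G.edgeSet) = _
      simp
    have h2 : eG p G ⟨s(a, b), by simpa using hab⟩ = decide (G.Adj a b) := by
      change decide (s(a, b) ∈ G.edgeSet) = _
      simp
    rw [h1, h2]
    by_cases h3 : G.Adj (g a) (g b) <;> by_cases h4 : G.Adj a b <;> simp [h3, h4]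
  constructor
  · rintro ⟨φ⟩
    refine ⟨φ.toEquiv, ?_⟩
    rintro ⟨e, he⟩
    induction e using Sym2.ind with
    | _ a b =>
      have hab : a ≠ b := by simpa using he
      rw [key φ.toEquiv a b hab]
      have := φ.map_rel_iff' (a := a) (b := b)
      rw [SimpleGraph.compl_adj] at this
      rw [← this]
      constructor
      · intro h; exact ⟨fun h' => hab (φ.toEquiv.injective h'), h⟩
      · intro h; exact h.2
  · rintro ⟨g, hg⟩
    refine ⟨⟨g, ?_⟩⟩
    intro a b
    by_cases hab : a = b
    · subst hab; simp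
    · have := (key g a b hab).mp (hg _)
      rw [SimpleGraph.compl_adj, ← this]
      constructor
      · intro h; exact h.2
      · intro h; exact ⟨fun h' => hab (g.injective h'), h⟩

open Classical in
/-- a digraph as a two-colouring of the ordered pairs -/
noncomputable def eD (p : ℕ) : LDigraph p ≃ (EO p → Bool) where
  toFun := fun D e => decide (D.1 e.1.1 e.1.2)
  invFun := fun c => ⟨fun i j => ∃ h : i ≠ j, c ⟨(i, j), h⟩ = true, fun i h => h.1 rfl⟩
  left_inv := by
    intro D
    apply Subtype.ext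
    funext i j
    apply propext
    constructor
    · rintro ⟨h, hc⟩
      simpa using hc
    · intro h
      exact ⟨fun hij => D.2 i (by rw [← hij] at h; exact h), by simpa using h⟩
  right_inv := by
    intro c
    funext e
    obtain ⟨⟨a, b⟩, he⟩ := e
    rcases hc : c ⟨(a, b), he⟩ with _ | _
    · simp [hc]
    · have : a ≠ b := he
      simp [hc, this]

theorem sD_card (p : ℕ) :
    sD p = Nat.card {c : EO p → Bool // ∃ g : Equiv.Perm (Fin p), ∀ e, c (g • e) = !c e} := by
  classical
  unfold sD
  refine Nat.card_congr (Equiv.subtypeEquiv (eD p) ?_)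
  intro D
  have key : ∀ (g : Equiv.Perm (Fin p)) (a b : Fin p) (hab : a ≠ b),
      (eD p D (g • (⟨(a, b), hab⟩ : EO p)) = !(eD p D ⟨(a, b), hab⟩)) ↔
        (D.1 a b ↔ ¬ D.1 (g a) (g b)) := by
    intro g a b hab
    have h1 : eD p D (g • (⟨(a, b), hab⟩ : EO p)) = decide (D.1 (g a) (g b)) := rfl
    have h2 : eD p D ⟨(a, b), hab⟩ = decide (D.1 a b) := rfl
    rw [h1, h2]
    by_cases h3 : D.1 (g a) (g b) <;> by_cases h4 : D.1 a b <;> simp [h3, h4]
  constructor
  · rintro ⟨g, hg⟩
    refine ⟨g, ?_⟩
    rintro ⟨⟨a, b⟩, hab⟩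
    rw [key g a b hab]
    rw [hg a b]
    constructor
    · intro h; exact h.2
    · intro h; exact ⟨fun h' => hab (g.injective h'), h⟩
  · rintro ⟨g, hg⟩
    refine ⟨g, ?_⟩
    intro a b
    by_cases hab : a = b
    · subst hab
      constructor
      · intro h; exact absurd h (D.2 a)
      · intro h; exact absurd rfl h.1
    · rw [(key g a b hab).mp (hg _)]
      constructor
      · intro h; exact ⟨fun h' => hab (g.injective h'), h⟩
      · intro h; exact h.2

/-- **Explicit formulas** for the numbers of labeled self-complementary graphs and digraphs of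
order `p`, for every `p`. -/
theorem result (p : ℕ) :
    (sG p : ℚ) = ∑ A ∈ (p.factorial).divisors.powerset.erase ∅,
      ((-1) ^ (A.card + 1) / ∏ d ∈ A, (d : ℚ)) *
        ∑ σ : Fin A.card → Equiv.Perm (Fin p), (wt (EU p) σ : ℚ) ∧
    (sD p : ℚ) = ∑ A ∈ (p.factorial).divisors.powerset.erase ∅,
      ((-1) ^ (A.card + 1) / ∏ d ∈ A, (d : ℚ)) *
        ∑ σ : Fin A.card → Equiv.Perm (Fin p), (wt (EO p) σ : ℚ) := by
  refine ⟨?_, ?_⟩
  · rw [sG_card]; exact formula_eq p (EU p)
  · rw [sD_card]; exact formula_eq p (EO p)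

end Pool.Agent.Results.MP_1bfbc2_co.ExplicitFormula
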